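import Pool.Agent.H1.NV.Va
import Pool.Agent.H1.LD.Lf
import Pool.Agent.H1.ND.Na
import Pool.Agent.H1.EX.Xf

/-!
# NV/Vb, second hand (helper13): the area integral by polynomials of the second kind
-/

set_option autoImplicit false

namespace NV1

open Complex Set Filter Topology MeasureTheory EW1 EX1 LD1
open scoped ComplexConjugate ContDiff Real

private theorem VbN_zpow {R : ℂ} (_hR : R ≠ 0) (m : ℤ) :
    ∫ t in (0 : ℝ)..(2 * π), (R * exp (t * I)) ^ m = if m = 0 then (2 * π : ℂ) else 0 := by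
  have h1 : ∀ t : ℝ, (R * exp (t * I)) ^ m = R ^ m * exp ((m * I) * t) := by
    intro t
    rw [mul_zpow, ← Complex.exp_int_mul]
    congr 2
    ring
  simp only [h1]
  rw [intervalIntegral.integral_const_mul]
  split_ifs with h
  · subst h
    simp
  · have hm : (m : ℂ) * I ≠ 0 := mul_ne_zero (by exact_mod_cast h) I_ne_zero
    rw [integral_exp_mul_complex hm]
    have h2 : (m : ℂ) * I * ((2 * π : ℝ) : ℂ) = m * (2 * π * I) := by push_cast; ring
    rw [h2, Complex.exp_int_mul_two_pi_mul_I]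
    simp

private theorem VbN_ne {ρ : ℝ} (hρ : 0 < ρ) : (ρ : ℂ) ≠ 0 := by exact_mod_cast hρ.ne'

private theorem VbN_cont (R : ℂ) : Continuous fun t : ℝ => R * exp (t * I) := by fun_prop

/-- high coefficients of a polynomial vanish -/
private theorem VbN_high {c : ℂ} {r : ℝ} {μ : ℂ} {ρ : ℝ} (hρ : 0 < ρ) {b n : ℕ} (hn : b + 2 ≤ n) :
    fc c r μ (fun z => z ^ b) ρ n = 0 := by
  obtain ⟨j, rfl⟩ : ∃ j, n = b + 1 + (j + 1) := ⟨n - (b + 2), by omega⟩
  set P : Polynomial ℂ := (Polynomial.C c * Polynomial.X + Polynomial.C (r : ℂ) * (1 + Polynomial.C μ * Polynomial.X ^ 2)) ^ b *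
    (Polynomial.C (r : ℂ) * (1 - Polynomial.C μ * Polynomial.X ^ 2)) with hP
  have hw0 : ∀ t : ℝ, (ρ : ℂ) * exp (t * I) ≠ 0 := fun t => mul_ne_zero (VbN_ne hρ) (Complex.exp_ne_zero _)
  have h1 : ∀ t : ℝ, (c + r * (ρ * exp (t * I) + μ * (ρ * exp (t * I))⁻¹)) ^ b *
      (r * (ρ * exp (t * I) - μ * (ρ * exp (t * I))⁻¹)) * (ρ * exp (t * I))⁻¹ ^ (b + 1 + (j + 1)) =
      ∑ i ∈ Finset.range (P.natDegree + 1), P.coeff i * ((ρ : ℂ) * exp (t * I)) ^ (-((j + 1 + i : ℕ) : ℤ)) := by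
    intro t
    have hw := hw0 t
    set w := (ρ : ℂ) * exp (t * I) with hwd
    have e1 : ∑ i ∈ Finset.range (P.natDegree + 1), P.coeff i * w ^ (-((j + 1 + i : ℕ) : ℤ)) =
        w⁻¹ ^ (j + 1) * P.eval w⁻¹ := by
      rw [Polynomial.eval_eq_sum_range, Finset.mul_sum]
      refine Finset.sum_congr rfl fun i _ => ?_
      rw [zpow_neg, zpow_natCast, ← inv_pow, pow_add]
      ring
    rw [e1, hP]
    simp only [Polynomial.eval_mul, Polynomial.eval_pow, Polynomial.eval_add, Polynomial.eval_sub, Polynomial.eval_C,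
      Polynomial.eval_X, Polynomial.eval_one]
    have e2 : c + r * (w + μ * w⁻¹) = w * (c * w⁻¹ + r * (1 + μ * w⁻¹ ^ 2)) := by
      field_simp
    have e3 : r * (w - μ * w⁻¹) = w * (r * (1 - μ * w⁻¹ ^ 2)) := by
      field_simp
    rw [e2, e3, mul_pow]
    have e4 : w ^ b * w * w⁻¹ ^ (b + 1) = 1 := by
      rw [← pow_succ, inv_pow, mul_inv_cancel₀ (pow_ne_zero _ hw)]
    rw [pow_add w⁻¹ (b + 1) (j + 1)]
    linear_combination (((c * w⁻¹ + r * (1 + μ * w⁻¹ ^ 2)) ^ b) * (r * (1 - μ * w⁻¹ ^ 2)) * w⁻¹ ^ (j + 1)) * e4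
  unfold fc
  simp only [h1]
  rw [intervalIntegral.integral_finsetSum]
  · rw [Finset.sum_eq_zero, zero_div]
    intro i _
    rw [intervalIntegral.integral_const_mul, VbN_zpow (VbN_ne hρ), if_neg (by omega), mul_zero]
  · intro i _
    refine Continuous.intervalIntegrable ?_ _ _
    exact continuous_const.mul ((VbN_cont _).zpow₀ _ fun t => Or.inl (hw0 t))


/-- polynomials of the second kind -/
noncomputable def VbU (μ : ℂ) : ℕ → Polynomial ℂ
  | 0 => 1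
  | 1 => Polynomial.X
  | n + 2 => Polynomial.X * VbU μ (n + 1) - Polynomial.C μ * VbU μ n

theorem VbU_succ {μ z w w' : ℂ} (h1 : w + w' = z) (h2 : w * w' = μ) (n : ℕ) :
    (VbU μ (n + 1)).eval z = w * (VbU μ n).eval z + w' ^ (n + 1) := by
  induction n with
  | zero =>
    simp [VbU, ← h1]
  | succ n ih =>
    have e : (VbU μ (n + 2)).eval z = z * (VbU μ (n + 1)).eval z - μ * (VbU μ n).eval z := by
      simp [VbU]
    rw [e]
    have e2 : z * (VbU μ (n + 1)).eval z - μ * (VbU μ n).eval z =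
        w * (VbU μ (n + 1)).eval z + w' * ((VbU μ (n + 1)).eval z - w * (VbU μ n).eval z) := by
      rw [← h1, ← h2]
      ring
    rw [e2]
    have e3 : (VbU μ (n + 1)).eval z - w * (VbU μ n).eval z = w' ^ (n + 1) := by
      rw [ih]
      ring
    rw [e3]
    ring

theorem VbU_mul {μ z w w' : ℂ} (h1 : w + w' = z) (h2 : w * w' = μ) (n : ℕ) :
    (VbU μ n).eval z * (w - w') = w ^ (n + 1) - w' ^ (n + 1) := by
  induction n with
  | zero =>
    simp [VbU]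
  | succ n ih =>
    rw [VbU_succ h1 h2]
    linear_combination w * ih

theorem VbU_norm {μ z w w' : ℂ} (h1 : w + w' = z) (h2 : w * w' = μ) (hw : ‖w‖ ≤ 1) (hw' : ‖w'‖ ≤ 1) (n : ℕ) :
    ‖(VbU μ n).eval z‖ ≤ n + 1 := by
  induction n with
  | zero =>
    simp [VbU]
  | succ n ih =>
    rw [VbU_succ h1 h2]
    refine (norm_add_le _ _).trans ?_
    rw [norm_mul, norm_pow]
    have e1 : ‖w‖ * ‖(VbU μ n).eval z‖ ≤ 1 * ((n : ℝ) + 1) := mul_le_mul hw ih (norm_nonneg _) zero_le_one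
    have e2 : ‖w'‖ ^ (n + 1) ≤ 1 := pow_le_one₀ (norm_nonneg _) hw'
    push_cast
    linarith

/-- roots of a point of the ellipse -/
theorem Vb_roots {μ : ℂ} (hμ : ‖μ‖ < 1) {z : ℂ} (hz : z ∈ Dp 0 1 μ 1) :
    ∃ w w' : ℂ, w + w' = z ∧ w * w' = μ ∧ ‖w'‖ ≤ ‖w‖ ∧ ‖w‖ < 1 := by
  obtain ⟨w, w', h1, h2, h3⟩ := Lf_roots μ z
  refine ⟨w, w', h1, h2, h3, ?_⟩
  have hz' : ‖vv 0 1 μ z‖ < 1 := hz
  have h0 : 0 ≤ ‖vv 0 1 μ z‖ := norm_nonneg _
  obtain ⟨σ, hσ⟩ : ∃ σ : ℝ, σ = (1 + ‖vv 0 1 μ z‖) / 2 := ⟨_, rfl⟩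
  have hσ0 : 0 < σ := by rw [hσ]; linarith
  have hσ1 : σ < 1 := by rw [hσ]; linarith
  have hzσ : z ∈ Dp 0 1 μ σ := by
    show ‖vv 0 1 μ z‖ < σ
    rw [hσ]
    linarith
  have h4 := Lf_root_bound hμ hσ0 hσ1 le_rfl hzσ h1 h2 h3
  have h5 : 0 < (1 - σ) * (1 - ‖μ‖) := mul_pos (by linarith) (by linarith)
  linarith

theorem Vb_U_bd {μ : ℂ} (hμ : ‖μ‖ < 1) {z : ℂ} (hz : z ∈ Dp 0 1 μ 1) (n : ℕ) : ‖(VbU μ n).eval z‖ ≤ n + 1 := by
  obtain ⟨w, w', h1, h2, h3, h4⟩ := Vb_roots hμ hz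
  exact VbU_norm h1 h2 h4.le (h3.trans h4.le) n

/-- the coefficients of the polynomials of the second kind -/
theorem Vb_U_fc {μ : ℂ} {ρ : ℝ} (hρ : 0 < ρ) (i n : ℕ) :
    fc 0 1 μ (fun z => (VbU μ i).eval z) ρ (n + 1) = if n = i then 1 else 0 := by
  have hw0 : ∀ t : ℝ, (ρ : ℂ) * exp (t * I) ≠ 0 := fun t => mul_ne_zero (VbN_ne hρ) (Complex.exp_ne_zero _)
  have h1 : ∀ t : ℝ, (VbU μ i).eval (0 + ((1 : ℝ) : ℂ) * (ρ * exp (t * I) + μ * (ρ * exp (t * I))⁻¹)) *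
      (((1 : ℝ) : ℂ) * (ρ * exp (t * I) - μ * (ρ * exp (t * I))⁻¹)) * (ρ * exp (t * I))⁻¹ ^ (n + 1) =
      ((ρ : ℂ) * exp (t * I)) ^ ((i : ℤ) - n) - μ ^ (i + 1) * ((ρ : ℂ) * exp (t * I)) ^ (-((i + 1 + (n + 1) : ℕ) : ℤ)) := by
    intro t
    have hw := hw0 t
    obtain ⟨w, hwd⟩ : ∃ w : ℂ, w = (ρ : ℂ) * exp (t * I) := ⟨_, rfl⟩
    rw [← hwd] at hw
    rw [← hwd]
    have e1 : (0 : ℂ) + ((1 : ℝ) : ℂ) * (w + μ * w⁻¹) = w + μ * w⁻¹ := by
      push_cast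
      ring
    have e2 : ((1 : ℝ) : ℂ) * (w - μ * w⁻¹) = w - μ * w⁻¹ := by
      push_cast
      ring
    have e3 : w * (μ * w⁻¹) = μ := by
      field_simp
    rw [e1, e2, VbU_mul rfl e3, mul_pow, zpow_neg, zpow_natCast, zpow_sub₀ hw, zpow_natCast, zpow_natCast]
    rw [pow_add w (i + 1) (n + 1), inv_pow, inv_pow]
    have a1 : w ^ (i + 1) * (w ^ (n + 1))⁻¹ = w ^ i / w ^ n := by
      rw [pow_succ, pow_succ, div_eq_mul_inv]
      field_simp
    rw [sub_mul, a1, mul_inv]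
    ring
  unfold fc
  simp only [h1]
  rw [intervalIntegral.integral_sub, intervalIntegral.integral_const_mul, VbN_zpow (VbN_ne hρ), VbN_zpow (VbN_ne hρ),
    if_neg (show ¬ (-((i + 1 + (n + 1) : ℕ) : ℤ)) = 0 by omega)]
  · have hπ : (2 * π : ℂ) ≠ 0 := by
      have := Real.pi_ne_zero
      exact_mod_cast mul_ne_zero two_ne_zero this
    by_cases h : n = i
    · subst h
      rw [if_pos (by ring), if_pos rfl]
      rw [mul_zero, sub_zero, div_self hπ]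
    · rw [if_neg (by omega), if_neg h]
      simp
  · exact Continuous.intervalIntegrable ((VbN_cont _).zpow₀ _ fun t => Or.inl (hw0 t)) _ _
  · exact Continuous.intervalIntegrable (continuous_const.mul ((VbN_cont _).zpow₀ _ fun t => Or.inl (hw0 t))) _ _


theorem Vb_int {μ : ℂ} (hμ : ‖μ‖ < 1) {N : Set ℂ} (hK : Kp 0 1 μ ⊆ N) {G : ℂ → ℂ} (hG : ContinuousOn G N) :
    IntegrableOn G (Dp 0 1 μ 1) := by
  have h1 : IntegrableOn G (Kp 0 1 μ) := (hG.mono hK).integrableOn_compact (Xf_Kc one_pos hμ)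
  exact h1.mono_set fun z hz => (show ‖vv 0 1 μ z‖ ≤ 1 from (show ‖vv 0 1 μ z‖ < 1 from hz).le)

theorem Vb_fc_sum {μ : ℂ} {ρ : ℝ} (hρ : 0 < ρ) (P : Polynomial ℂ) {K : ℕ} (hP : P.natDegree < K) (n : ℕ) :
    fc 0 1 μ (fun z => P.eval z) ρ n = ∑ b ∈ Finset.range K, P.coeff b * fc 0 1 μ (fun z => z ^ b) ρ n := by
  have hw0 : ∀ t : ℝ, (ρ : ℂ) * exp (t * I) ≠ 0 := fun t => mul_ne_zero (VbN_ne hρ) (Complex.exp_ne_zero _)
  have hc : Continuous fun t : ℝ => (ρ : ℂ) * exp (t * I) := VbN_cont _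
  have hi : Continuous fun t : ℝ => ((ρ : ℂ) * exp (t * I))⁻¹ := hc.inv₀ hw0
  unfold fc
  simp only [Polynomial.eval_eq_sum_range' hP, Finset.sum_mul]
  rw [intervalIntegral.integral_finsetSum, Finset.sum_div]
  · refine Finset.sum_congr rfl fun b _ => ?_
    rw [← mul_div_assoc, ← intervalIntegral.integral_const_mul]
    congr 1
    refine intervalIntegral.integral_congr fun t _ => ?_
    ring
  · intro b _
    refine Continuous.intervalIntegrable ?_ _ _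
    exact ((continuous_const.mul ((continuous_const.add (continuous_const.mul (hc.add (continuous_const.mul hi)))).pow b)).mul
      (continuous_const.mul (hc.sub (continuous_const.mul hi)))).mul (hi.pow n)

theorem Vb_PM {μ : ℂ} (hμ : ‖μ‖ < 1) {ρ : ℝ} (hρ : 0 < ρ) (h1 : ‖μ‖ < ρ ^ 2) (hρ1 : ρ < 1) {N : Set ℂ} (hN : IsOpen N)
    (hK : Kp 0 1 μ ⊆ N) {F : ℂ → ℂ} (hF : DifferentiableOn ℂ F N) (P : Polynomial ℂ) {K : ℕ} (hP : P.natDegree < K) :
    ∫ z in Dp 0 1 μ 1, F z * conj (P.eval z) = π * ∑ n ∈ Finset.range K, ((1 - ‖μ‖ ^ (2 * (n + 1)) : ℝ) : ℂ) / (n + 1) *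
      fc 0 1 μ F ρ (n + 1) * conj (fc 0 1 μ (fun z => P.eval z) ρ (n + 1)) := by
  have e1 : ∀ z : ℂ, F z * conj (P.eval z) = ∑ b ∈ Finset.range K, conj (P.coeff b) * (F z * conj z ^ b) := by
    intro z
    rw [Polynomial.eval_eq_sum_range' hP, map_sum, Finset.mul_sum]
    refine Finset.sum_congr rfl fun b _ => ?_
    rw [map_mul, map_pow]
    ring
  simp only [e1]
  rw [integral_finsetSum]
  · have e2 : ∀ b ∈ Finset.range K, ∫ z in Dp 0 1 μ 1, conj (P.coeff b) * (F z * conj z ^ b) =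
        π * ∑ n ∈ Finset.range K, conj (P.coeff b) * (((1 - ‖μ‖ ^ (2 * (n + 1)) : ℝ) : ℂ) / (n + 1) *
          fc 0 1 μ F ρ (n + 1) * conj (fc 0 1 μ (fun z => z ^ b) ρ (n + 1))) := by
      intro b hb
      rw [integral_const_mul, ND1.PM one_pos hρ h1 hρ1 hN hK hF b, ← Finset.mul_sum]
      have e3 : ∑ n ∈ Finset.range (b + 1), ((1 - ‖μ‖ ^ (2 * (n + 1)) : ℝ) : ℂ) / (n + 1) *
          fc 0 1 μ F ρ (n + 1) * conj (fc 0 1 μ (fun z => z ^ b) ρ (n + 1)) =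
          ∑ n ∈ Finset.range K, ((1 - ‖μ‖ ^ (2 * (n + 1)) : ℝ) : ℂ) / (n + 1) *
          fc 0 1 μ F ρ (n + 1) * conj (fc 0 1 μ (fun z => z ^ b) ρ (n + 1)) := by
        refine Finset.sum_subset ?_ ?_
        · intro x hx
          rw [Finset.mem_range] at *
          omega
        · intro x _ hx
          rw [Finset.mem_range] at hx
          rw [VbN_high hρ (by omega), map_zero, mul_zero]
      rw [e3]
      ring
    rw [Finset.sum_congr rfl e2, ← Finset.mul_sum, Finset.sum_comm]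
    congr 1
    refine Finset.sum_congr rfl fun n _ => ?_
    rw [Vb_fc_sum hρ P hP (n + 1), map_sum, Finset.mul_sum]
    refine Finset.sum_congr rfl fun b _ => ?_
    rw [map_mul]
    ring
  · intro b _
    refine Vb_int hμ hK ?_
    exact continuousOn_const.mul (hF.continuousOn.mul (Continuous.continuousOn (by fun_prop)))

theorem Vb_deg (μ : ℂ) (n : ℕ) : (VbU μ n).natDegree ≤ n := by
  induction n using Nat.twoStepInduction with
  | zero => simp [VbU]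
  | one => simp [VbU]
  | more n h0 h1 =>
    have e : VbU μ (n + 2) = Polynomial.X * VbU μ (n + 1) - Polynomial.C μ * VbU μ n := rfl
    rw [e]
    refine (Polynomial.natDegree_sub_le _ _).trans (max_le ?_ ?_)
    · refine Polynomial.natDegree_mul_le.trans ?_
      have := Polynomial.natDegree_X_le (R := ℂ)
      omega
    · refine Polynomial.natDegree_mul_le.trans ?_
      rw [Polynomial.natDegree_C]
      omega

theorem Vb_U_int {μ : ℂ} (hμ : ‖μ‖ < 1) {ρ : ℝ} (hρ : 0 < ρ) (h1 : ‖μ‖ < ρ ^ 2) (hρ1 : ρ < 1) {N : Set ℂ} (hN : IsOpen N)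
    (hK : Kp 0 1 μ ⊆ N) {F : ℂ → ℂ} (hF : DifferentiableOn ℂ F N) (i : ℕ) :
    ∫ z in Dp 0 1 μ 1, F z * conj ((VbU μ i).eval z) = π * (((1 - ‖μ‖ ^ (2 * (i + 1)) : ℝ) : ℂ) / (i + 1) *
      fc 0 1 μ F ρ (i + 1)) := by
  rw [Vb_PM hμ hρ h1 hρ1 hN hK hF (VbU μ i) (K := i + 1) (by have := Vb_deg μ i; omega)]
  congr 1
  rw [Finset.sum_eq_single i]
  · rw [Vb_U_fc hρ, if_pos rfl, map_one, mul_one]
  · intro n _ hn
    rw [Vb_U_fc hρ, if_neg hn, map_zero, mul_zero]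
  · intro h
    exact absurd (Finset.mem_range.2 (by omega)) h

/-- the expansion -/
theorem Vb_exp {μ : ℂ} (hμ : ‖μ‖ < 1) {m : ℂ → ℂ} {M : ℕ → ℂ} {s : ℝ} (hs : 1 < s)
    (h : ∀ w : ℂ, ‖μ‖ < ‖w‖ * s → ‖w‖ < s → m (zw μ w) * pw μ w = sE μ M w) {z : ℂ} (hz : z ∈ Dp 0 1 μ 1)
    (hz4 : z ^ 2 ≠ 4 * μ) : m z = ∑' n : ℕ, M n * (VbU μ n).eval z := by
  obtain ⟨w, w', h1, h2, h3, h4⟩ := Vb_roots hμ hz
  have hne : w ≠ w' := by
    intro e
    apply hz4
    rw [← h1, ← h2, ← e]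
    ring
  have hw : w ≠ 0 := by
    intro e
    rw [e, norm_zero] at h3
    have : w' = 0 := norm_eq_zero.1 (le_antisymm h3 (norm_nonneg _))
    exact hne (by rw [e, this])
  have hwn : 0 < ‖w‖ := norm_pos_iff.2 hw
  have hw' : w' = μ * w⁻¹ := by
    rw [← h2]
    field_simp
  have hzw : zw μ w = z := by
    unfold zw
    rw [← hw', h1]
  have hpw : pw μ w = w - w' := by
    unfold pw
    rw [← hw']
  have h5 := h w (by
    rw [← h2, norm_mul]
    exact mul_lt_mul_of_pos_left (by linarith) hwn) (by linarith)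
  rw [hzw, hpw] at h5
  have h6 : sE μ M w = (∑' n : ℕ, M n * (VbU μ n).eval z) * (w - w') := by
    unfold sE
    rw [← tsum_mul_right]
    refine tsum_congr fun n => ?_
    rw [mul_assoc, VbU_mul h1 h2, ← hw']
  rw [h6] at h5
  exact mul_right_cancel₀ (sub_ne_zero.2 hne) h5

theorem Vb_area {μ : ℂ} (hμ : ‖μ‖ < 1) {ρ : ℝ} (hρ : 0 < ρ) (h1 : ‖μ‖ < ρ ^ 2) (hρ1 : ρ < 1) {N : Set ℂ} (hN : IsOpen N)
    (hK : Kp 0 1 μ ⊆ N) {F m : ℂ → ℂ} (hF : DifferentiableOn ℂ F N) (hm : DifferentiableOn ℂ m N) :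
    ∫ z in Dp 0 1 μ 1, conj (m z) * F z =
      π * ∑' n : ℕ, ((1 - ‖μ‖ ^ (2 * (n + 1)) : ℝ) : ℂ) * fc 0 1 μ F ρ (n + 1) * conj (fc 0 1 μ m ρ (n + 1)) / ((n : ℂ) + 1) := by
  obtain ⟨s, hs, -, he⟩ := expa hμ hρ h1 hρ1 hN hK
  obtain ⟨⟨C, hC⟩, hE⟩ := he m hm
  obtain ⟨M, hM⟩ : ∃ M : ℕ → ℂ, M = fun n => fc 0 1 μ m ρ (n + 1) := ⟨_, rfl⟩
  rw [← hM] at hC hE
  have hDm : MeasurableSet (Dp 0 1 μ 1) := (Dp_open _ _ _ _).measurableSet
  have hFi : IntegrableOn F (Dp 0 1 μ 1) := Vb_int hμ hK hF.continuousOn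
  have hs0 : 0 < s := by linarith
  -- the expansion almost everywhere
  have hae : ∀ᵐ z ∂(volume.restrict (Dp 0 1 μ 1)), conj (m z) * F z = ∑' n : ℕ, conj (M n) * (F z * conj ((VbU μ n).eval z)) := by
    have hfin : Set.Finite {z : ℂ | z ^ 2 = 4 * μ} := by
      obtain ⟨d, hd⟩ := IsAlgClosed.exists_pow_nat_eq (4 * μ) (n := 2) two_pos
      refine (Set.toFinite {d, -d}).subset ?_
      intro z hz
      have hz' : z ^ 2 = d ^ 2 := by rw [hd]; exact hz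
      rcases sq_eq_sq_iff_eq_or_eq_neg.1 hz' with h | h
      · exact Or.inl h
      · exact Or.inr h
    have h0 : ∀ᵐ z ∂(volume : Measure ℂ), z ∉ {z : ℂ | z ^ 2 = 4 * μ} := by
      have := hfin.measure_zero (volume : Measure ℂ)
      exact measure_eq_zero_iff_ae_notMem.1 this
    filter_upwards [ae_restrict_of_ae h0, ae_restrict_mem hDm] with z hz4 hz
    rw [Vb_exp hμ hs hE hz hz4]
    rw [Complex.conj_tsum, ← tsum_mul_right]
    refine tsum_congr fun n => ?_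
    rw [map_mul]
    ring
  rw [integral_congr_ae hae]
  -- integration term by term
  have hint : ∀ n : ℕ, Integrable (fun z => conj (M n) * (F z * conj ((VbU μ n).eval z))) (volume.restrict (Dp 0 1 μ 1)) := by
    intro n
    refine Vb_int hμ hK ?_
    exact continuousOn_const.mul (hF.continuousOn.mul (Continuous.continuousOn
      (Complex.continuous_conj.comp (VbU μ n).continuous)))
  have hbd : ∀ n : ℕ, ∫ z in Dp 0 1 μ 1, ‖conj (M n) * (F z * conj ((VbU μ n).eval z))‖ ≤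
      C * (((n : ℝ) + 1) * s⁻¹ ^ n) * ∫ z in Dp 0 1 μ 1, ‖F z‖ := by
    intro n
    rw [← integral_const_mul]
    refine setIntegral_mono_on (hint n).norm (hFi.norm.const_mul _) hDm ?_
    intro z hz
    have k1 := Vb_U_bd hμ hz n
    have k2 : ‖M n‖ ≤ C * s⁻¹ ^ n := by
      rw [inv_pow, ← div_eq_mul_inv, le_div_iff₀ (by positivity)]
      exact hC n
    rw [norm_mul, norm_mul, RCLike.norm_conj, RCLike.norm_conj]
    have k3 : ‖M n‖ * (‖F z‖ * ‖(VbU μ n).eval z‖) = (‖M n‖ * ‖(VbU μ n).eval z‖) * ‖F z‖ := by ring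
    rw [k3]
    refine mul_le_mul_of_nonneg_right ?_ (norm_nonneg _)
    have k4 : C * (((n : ℝ) + 1) * s⁻¹ ^ n) = (C * s⁻¹ ^ n) * (n + 1) := by ring
    rw [k4]
    exact mul_le_mul k2 k1 (norm_nonneg _) ((norm_nonneg _).trans k2)
  have hsi : ‖s⁻¹‖ < 1 := by
    rw [norm_inv, Real.norm_of_nonneg hs0.le]
    exact inv_lt_one_of_one_lt₀ hs
  have hsum0 : Summable fun n : ℕ => ((n : ℝ) + 1) * s⁻¹ ^ n := by
    have a1 := summable_pow_mul_geometric_of_norm_lt_one 1 hsi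
    have a2 := summable_geometric_of_norm_lt_one hsi
    refine (a1.add a2).congr fun n => ?_
    rw [pow_one]
    ring
  have hsum : Summable fun n : ℕ => ∫ z in Dp 0 1 μ 1, ‖conj (M n) * (F z * conj ((VbU μ n).eval z))‖ :=
    Summable.of_nonneg_of_le (fun n => integral_nonneg fun z => norm_nonneg _) hbd ((hsum0.mul_left C).mul_right _)
  rw [← (hasSum_integral_of_summable_integral_norm hint hsum).tsum_eq, ← tsum_mul_left]
  refine tsum_congr fun n => ?_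
  rw [integral_const_mul, Vb_U_int hμ hρ h1 hρ1 hN hK hF n, hM]
  ring

end NV1
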